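import Pool.Agent.NDR.StmtsR

/-!
# Squad NDR (MP_b48657_ag), row RAH

Raising finitely many thresholds.
-/

set_option autoImplicit false

namespace Pool.Agent.NDR.H99R

open Finset Pool.Agent.Helper30_Simp

theorem rah (rai : RaiStmt) : RahStmt := by
  classical
  intro τ _ L _ A c t I P X H θ hPI ht hA hX
  induction H using Finset.induction_on with
  | empty =>
    intro _ _ _ T h hT _ hh
    exact ⟨h, hT, fun v hv m hm => ⟨(hh v hv m hm).1, (hh v hv m hm).2, by simp⟩⟩
  | insert l H hl ih =>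
    intro h1 h2 h3 T h hT hs hh
    obtain ⟨g, hg, hg'⟩ := ih (fun l' hl' => h1 l' (mem_insert_of_mem hl'))
      (fun l' hl' => h2 l' (mem_insert_of_mem hl'))
      (fun l' hl' => h3 l' (mem_insert_of_mem hl')) T h hT
      (fun l' hl' => hs l' (mem_insert_of_mem hl')) hh
    obtain ⟨k, hk, hk'⟩ := rai τ L A c t I P (X ∩ {m | ∀ l' ∈ H, θ l' ≤ pr l' m}) l (θ l) hPI ht hA
      (by
        intro m hm a ha
        refine ⟨hX m hm.1 a ha, fun l' hl' => ?_⟩
        have e : pr l' (m + a) = pr l' m + pr l' a := by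
          simp only [pr, Pi.add_apply, Int.cast_add, mul_add, Finset.sum_add_distrib]
        rw [e]
        have q1 : θ l' ≤ pr l' m := hm.2 l' hl'
        have q2 := h2 l' (mem_insert_of_mem hl') a ha
        omega)
      (h1 l (mem_insert_self l H)) (h2 l (mem_insert_self l H)) (h3 l (mem_insert_self l H))
      T g hg (hs l (mem_insert_self l H))
      (fun v hv m hm => ⟨⟨(hg' v hv m hm).1, (hg' v hv m hm).2.2⟩, (hg' v hv m hm).2.1⟩)
    refine ⟨k, hk, fun v hv m hm => ?_⟩
    obtain ⟨a1, a2, a3⟩ := hk' v hv m hm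
    refine ⟨a1.1, a2, fun l' hl' => ?_⟩
    rcases mem_insert.1 hl' with e | e
    · rw [e]; exact a3
    · exact a1.2 l' e

end Pool.Agent.NDR.H99R
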