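import Pool.Agent.NDR.StmtsC
import Mathlib.FieldTheory.Differential.Basic

/-!
# Squad NDR (MP_b48657_ag), row CDV

A derivation of the coefficients vanishes at an algebraic critical zero.
-/

set_option autoImplicit false

namespace Pool.Agent.NDR.H99

open Finset Pool.Agent.Helper6_Mono Pool.Agent.Helper30_Simp MvPolynomial

theorem coeff_cfD {σ K : Type} [Field K] (δ : Derivation ℤ K K) (G : MvPolynomial σ K)
    (β : σ →₀ ℕ) : coeff β (cfD δ G) = δ (coeff β G) := by
  classical
  unfold cfD
  rw [coeff_sum]
  simp only [coeff_monomial]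
  rw [Finset.sum_ite_eq' G.support β (fun α => δ (coeff α G))]
  split_ifs with h
  · rfl
  · rw [notMem_support_iff.1 h, map_zero]

theorem cfD_add {σ K : Type} [Field K] (δ : Derivation ℤ K K) (G H : MvPolynomial σ K) :
    cfD δ (G + H) = cfD δ G + cfD δ H := by
  ext β
  simp only [coeff_cfD, coeff_add, map_add]

theorem cfD_C {σ K : Type} [Field K] (δ : Derivation ℤ K K) (a : K) :
    cfD δ (C a : MvPolynomial σ K) = C (δ a) := by
  classical
  ext β
  simp only [coeff_cfD, coeff_C]
  split_ifs
  · rfl
  · rw [map_zero]

theorem cfD_mul_X {σ K : Type} [Field K] (δ : Derivation ℤ K K) (G : MvPolynomial σ K) (l : σ) :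
    cfD δ (G * X l) = cfD δ G * X l := by
  classical
  ext β
  simp only [coeff_cfD, coeff_mul_X']
  split_ifs
  · rfl
  · rw [map_zero]

theorem cdv_key {σ K E : Type} [Fintype σ] [Field K] (δ : Derivation ℤ K K) [Field E]
    [Algebra K E] (D : Derivation ℤ E E) (hD : ∀ a : K, D (algebraMap K E a) = algebraMap K E (δ a))
    (η : σ → E) (H : MvPolynomial σ K) :
    D (aeval η H) = aeval η (cfD δ H) + ∑ l, aeval η (pderiv l H) * D (η l) := by
  classical
  induction H using MvPolynomial.induction_on with
  | C a =>
    rw [cfD_C, aeval_C, aeval_C, hD]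
    simp
  | add p q hp hq =>
    rw [cfD_add, map_add, map_add, hp, hq, map_add]
    simp only [map_add, add_mul, Finset.sum_add_distrib]
    ring
  | mul_X p i hp =>
    rw [cfD_mul_X, map_mul, Derivation.leibniz, hp, map_mul, aeval_X]
    have h1 : ∀ l, aeval η (pderiv l (p * X i)) * D (η l)
        = η i * (aeval η (pderiv l p) * D (η l))
          + (if l = i then aeval η p * D (η l) else 0) := by
      intro l
      rw [Derivation.leibniz, pderiv_X, map_add, smul_eq_mul, smul_eq_mul, map_mul, map_mul,
        aeval_X]
      by_cases hl : l = i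
      · subst hl
        simp
        ring
      · rw [Pi.single_eq_of_ne' hl]
        simp [hl]
        ring
    simp only [h1, Finset.sum_add_distrib, ← Finset.mul_sum, Finset.sum_ite_eq', Finset.mem_univ,
      if_true, smul_eq_mul]
    ring

theorem cdv : CdvStmt := by
  intro σ _ K _ _ δ G L _ _ _ ξ h0 h1
  classical
  letI : Differential K := ⟨δ⟩
  haveI : FiniteDimensional K (IntermediateField.adjoin K (Set.range ξ)) :=
    IntermediateField.finiteDimensional_adjoin
      (fun x _ => (Algebra.IsAlgebraic.isAlgebraic x).isIntegral)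
  letI : Differential (IntermediateField.adjoin K (Set.range ξ)) :=
    Differential.differentialFiniteDimensional K _
  haveI : DifferentialAlgebra K (IntermediateField.adjoin K (Set.range ξ)) :=
    Differential.differentialAlgebraFiniteDimensional
  let η : σ → IntermediateField.adjoin K (Set.range ξ) := fun i =>
    ⟨ξ i, IntermediateField.subset_adjoin K _ ⟨i, rfl⟩⟩
  have hη : ∀ H : MvPolynomial σ K,
      algebraMap (IntermediateField.adjoin K (Set.range ξ)) L (aeval η H) = aeval ξ H := by
    intro H
    rw [← aeval_algebraMap_apply]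
    rfl
  have hinj := (algebraMap (IntermediateField.adjoin K (Set.range ξ)) L).injective
  have g0 : aeval η G = 0 := hinj (by rw [hη, h0, map_zero])
  have g1 : ∀ l, aeval η (pderiv l G) = 0 := fun l => hinj (by rw [hη, h1 l, map_zero])
  have hk := cdv_key δ (Differential.deriv : Derivation ℤ (IntermediateField.adjoin K (Set.range ξ)) _)
    (fun a => DifferentialAlgebra.deriv_algebraMap a) η G
  rw [g0, map_zero] at hk
  simp only [g1, zero_mul, Finset.sum_const_zero, add_zero] at hk
  rw [← hη, ← hk, map_zero]

end Pool.Agent.NDR.H99
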